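import Mathlib
import Pool.Agent.N890.DG.Ht

set_option autoImplicit false
set_option linter.unusedSectionVars false

/-! A coprime tuple of polynomials in several variables generates, for each variable, a nonzero
polynomial which does not involve this variable. -/

namespace Pool.Agent.N890.SC.Bez

open Pool.Agent.N890.DG.Ht (Cop)

section One

open Polynomial

variable {S : Type*} [CommRing S] [IsDomain S] [UniqueFactorizationMonoid S]

/-- one variable over a factorial ring -/
theorem one_var {α : Type*} [Fintype α] {g : α → S[X]} (hg : Cop g) :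
    ∃ (A : α → S[X]) (s : S), s ≠ 0 ∧ ∑ i, A i * g i = C s := by
  classical
  let _ : NormalizedGCDMonoid S := Classical.arbitrary _
  let Q := FractionRing S
  set φ : S[X] →+* Q[X] := mapRingHom (algebraMap S Q) with hφ
  have hφi : Function.Injective φ := map_injective _ (IsFractionRing.injective S Q)
  set I : Ideal Q[X] := Ideal.span (Set.range fun i => φ (g i)) with hI
  obtain ⟨i0, hi0⟩ := hg.exists_ne
  set p := Submodule.IsPrincipal.generator I with hp
  have hpI : I = Ideal.span {p} := (Ideal.span_singleton_generator I).symm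
  have hdvd : ∀ i, p ∣ φ (g i) := fun i => by
    rw [← Ideal.mem_span_singleton, ← hpI]
    exact Ideal.subset_span ⟨i, rfl⟩
  have hp0 : p ≠ 0 := by
    intro h
    have := hdvd i0
    rw [h, zero_dvd_iff] at this
    exact hi0 (hφi (by rw [this, map_zero]))
  set q := IsLocalization.integerNormalization (nonZeroDivisors S) p with hq
  obtain ⟨b, hb, hbq⟩ := IsLocalization.integerNormalization_spec (nonZeroDivisors S) p
  have hb0 : algebraMap S Q b ≠ 0 := fun h => nonZeroDivisors.ne_zero hb
    (IsFractionRing.injective S Q (by rw [h, map_zero]))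
  have h1 : φ q.primPart ∣ p := by
    have h2 : φ q.primPart ∣ φ q := map_dvd φ (primPart_dvd q)
    have h3 : φ q = C (algebraMap S Q b) * p := by
      have : φ q = b • p := hbq
      rw [this, Algebra.smul_def]
      rfl
    rw [h3] at h2
    exact (IsUnit.dvd_mul_left (isUnit_C.mpr (isUnit_iff_ne_zero.mpr hb0))).mp h2
  have hprim : q.primPart.IsPrimitive := isPrimitive_primPart q
  have h4 : ∀ i, q.primPart ∣ g i := fun i =>
    hprim.dvd_of_fraction_map_dvd_fraction_map (K := Q) (h1.trans (hdvd i))
  have h5 : IsUnit q.primPart := hg _ h4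
  have h6 : IsUnit p := isUnit_or_eq_zero_of_isUnit_integerNormalization_primPart hp0 h5
  have h7 : (1 : Q[X]) ∈ I := by
    rw [hpI, Ideal.span_singleton_eq_top.mpr h6]
    exact Submodule.mem_top
  rw [hI, Ideal.mem_span_range_iff_exists_fun] at h7
  obtain ⟨a, ha⟩ := h7
  have hex : ∀ i, ∃ (A : S[X]) (c : S), c ≠ 0 ∧ φ A = C (algebraMap S Q c) * a i := by
    intro i
    obtain ⟨c, hc, hcq⟩ := IsLocalization.integerNormalization_spec (nonZeroDivisors S) (a i)
    refine ⟨IsLocalization.integerNormalization (nonZeroDivisors S) (a i), c,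
      nonZeroDivisors.ne_zero hc, ?_⟩
    have : φ (IsLocalization.integerNormalization (nonZeroDivisors S) (a i)) = c • a i := hcq
    rw [this, Algebra.smul_def]
    rfl
  choose A c hc hA using hex
  refine ⟨fun i => C (∏ k ∈ Finset.univ.erase i, c k) * A i, ∏ i, c i,
    Finset.prod_ne_zero_iff.mpr fun i _ => hc i, hφi ?_⟩
  rw [map_sum]
  have hCφ : ∀ s : S, φ (C s) = C (algebraMap S Q s) := fun s => by
    rw [hφ, coe_mapRingHom, map_C]
  calc ∑ i, φ (C (∏ k ∈ Finset.univ.erase i, c k) * A i * g i)
      = ∑ i, C (algebraMap S Q (∏ i, c i)) * (a i * φ (g i)) := by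
        refine Finset.sum_congr rfl fun i _ => ?_
        rw [map_mul, map_mul, hCφ, hA, ← Finset.mul_prod_erase _ _ (Finset.mem_univ i), map_mul,
          map_mul]
        ring
    _ = φ (C (∏ i, c i)) := by
        rw [← Finset.mul_sum, ha, mul_one, hCφ]

end One

section Many

open MvPolynomial

variable {F : Type*} [Field F] {N : ℕ}

/-- coprimality is preserved by isomorphisms -/
lemma Cop.equiv {R S : Type*} [CommRing R] [CommRing S] {α : Type*} {g : α → R} (hg : Cop g)
    (e : R ≃+* S) : Cop (fun i => e (g i)) := by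
  intro G hG
  have h1 : IsUnit (e.symm G) := hg _ fun i => by
    have := map_dvd e.symm (hG i)
    rwa [e.symm_apply_apply] at this
  have := h1.map e
  rwa [e.apply_symm_apply] at this

theorem zero_var {α : Type*} [Fintype α] {g : α → MvPolynomial (Fin (N + 1)) F} (hg : Cop g) :
    ∃ (A : α → MvPolynomial (Fin (N + 1)) F) (r : MvPolynomial (Fin (N + 1)) F), r ≠ 0 ∧
      degreeOf 0 r = 0 ∧ ∑ i, A i * g i = r := by
  set e := (finSuccEquiv F N).toRingEquiv with he
  obtain ⟨A, s, hs, hA⟩ := one_var (Cop.equiv hg e)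
  refine ⟨fun i => e.symm (A i), e.symm (Polynomial.C s), ?_, ?_, ?_⟩
  · intro h
    have h1 := congrArg e h
    rw [e.apply_symm_apply, map_zero] at h1
    exact hs (Polynomial.C_eq_zero.mp h1)
  · rw [← natDegree_finSuccEquiv]
    have : finSuccEquiv F N (e.symm (Polynomial.C s)) = Polynomial.C s := e.apply_symm_apply _
    rw [this, Polynomial.natDegree_C]
  · rw [← hA, map_sum]
    refine Finset.sum_congr rfl fun i _ => ?_
    rw [map_mul, e.symm_apply_apply]

theorem any_var {α : Type*} [Fintype α] {g : α → MvPolynomial (Fin (N + 1)) F} (hg : Cop g)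
    (l : Fin (N + 1)) :
    ∃ (A : α → MvPolynomial (Fin (N + 1)) F) (r : MvPolynomial (Fin (N + 1)) F), r ≠ 0 ∧
      degreeOf l r = 0 ∧ ∑ i, A i * g i = r := by
  set σ := Equiv.swap (0 : Fin (N + 1)) l with hσ
  set e := (renameEquiv F σ).toRingEquiv with he
  obtain ⟨A, r, hr, hd, hA⟩ := zero_var (Cop.equiv hg e)
  refine ⟨fun i => e (A i), e r, ?_, ?_, ?_⟩
  · intro h
    exact hr (e.injective (by rw [h, map_zero]))
  · have h1 : degreeOf (σ 0) (rename σ r) = degreeOf 0 r := degreeOf_rename_of_injective σ.injective 0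
    rw [hσ, Equiv.swap_apply_left] at h1
    change degreeOf l (rename σ r) = 0
    rw [← hσ] at h1
    rw [h1, hd]
  · rw [← hA, map_sum]
    refine Finset.sum_congr rfl fun i _ => ?_
    rw [map_mul]
    congr 1
    change g i = rename σ (rename σ (g i))
    rw [rename_rename]
    have : (σ : Fin (N + 1) → Fin (N + 1)) ∘ σ = id := by
      funext k
      simp [hσ]
    rw [this, rename_id]
    rfl

end Many

end Pool.Agent.N890.SC.Bez
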