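import Mathlib
import Pool.Agent.N890.DG.Defs

set_option autoImplicit false

/-! Dynamical degrees and families of rational maps. -/

namespace Pool.Agent.N890.SC

open MvPolynomial Filter Topology Pool.Agent.N890.DG

universe u

variable {K : Type u} [Field K] {N k : ℕ}

/-- `δ` is the dynamical degree `lim deg (f ^ n) ^ (1 / n)` of the rational map `F`. -/
def IsDynamicalDegree (F : Fin (N + 1) → MvPolynomial (Fin (N + 1)) K) (δ : ℝ) : Prop :=
  ∃ e : ℕ → ℕ, (∀ n, IsIterateDegree F n (e n)) ∧
    Tendsto (fun n : ℕ => (e n : ℝ) ^ (1 / (n : ℝ))) atTop (𝓝 δ)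

/-- The rational function `c` of the parameters is defined at `t` and has the value `z` there. -/
def HasValue (t : Fin k → K) (c : FractionRing (MvPolynomial (Fin k) K)) (z : K) : Prop :=
  ∃ p q : MvPolynomial (Fin k) K, eval t q ≠ 0 ∧
    c * algebraMap (MvPolynomial (Fin k) K) (FractionRing (MvPolynomial (Fin k) K)) q =
      algebraMap (MvPolynomial (Fin k) K) (FractionRing (MvPolynomial (Fin k) K)) p ∧
    z * eval t q = eval t p

/-- All coefficients of the family `F` are defined at `t`, and `G` are coordinates of the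
specialised map, a common factor `H` being removed. -/
def IsSpecialization (t : Fin k → K)
    (F : Fin (N + 1) → MvPolynomial (Fin (N + 1)) (FractionRing (MvPolynomial (Fin k) K)))
    (G : Fin (N + 1) → MvPolynomial (Fin (N + 1)) K) : Prop :=
  ∃ (H : MvPolynomial (Fin (N + 1)) K) (d : ℕ), H ≠ 0 ∧ IsRationalMap G d ∧
    ∀ i m, HasValue t (coeff m (F i)) (coeff m (H * G i))

end Pool.Agent.N890.SC
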