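import Mathlib
import Pool.Agent.N890.SC.Bez
import Pool.Agent.Helper993.CS.Z5

set_option autoImplicit false
set_option linter.unusedSectionVars false

/-! The degree of a tuple of forms after cancellation does not change under a generic
specialisation. -/

namespace Pool.Agent.N890.SC.Spec

open MvPolynomial Pool.Agent.N890.DG.Ht Pool.Agent.N890.SC.Bez
open Pool.Agent.Helper993.CS (RedDeg iter)

universe u v

variable {R : Type u} {F : Type v} [CommRing R] [IsDomain R] [Field F] [Algebra R F]
  [IsFractionRing R F]

lemma aR_inj : Function.Injective (algebraMap R F) := IsFractionRing.injective R F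

/-- clearing denominators -/
lemma clear {σ : Type*} (Q : MvPolynomial σ F) : ∃ b : R, b ≠ 0 ∧ ∃ Q' : MvPolynomial σ R,
    map (algebraMap R F) Q' = C (algebraMap R F b) * Q := by
  induction Q using MvPolynomial.induction_on with
  | C a =>
    obtain ⟨p, q, hq, rfl⟩ := IsFractionRing.div_surjective (A := R) a
    have hq0 := nonZeroDivisors.ne_zero hq
    refine ⟨q, hq0, C p, ?_⟩
    have hq1 : algebraMap R F q ≠ 0 := fun h => hq0 (aR_inj (by rw [h, map_zero]))
    rw [map_C, ← C_mul]
    congr 1
    field_simp
  | add p q hp hq =>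
    obtain ⟨b, hb, p', hp'⟩ := hp
    obtain ⟨c, hc, q', hq'⟩ := hq
    refine ⟨b * c, mul_ne_zero hb hc, C c * p' + C b * q', ?_⟩
    rw [map_add, map_mul, map_mul, hp', hq', map_C, map_C, map_mul, C_mul]
    ring
  | mul_X p i hp =>
    obtain ⟨b, hb, p', hp'⟩ := hp
    refine ⟨b, hb, p' * X i, ?_⟩
    rw [map_mul, hp', map_X]
    ring

lemma clear_fam {σ α : Type*} [Fintype α] (Q : α → MvPolynomial σ F) : ∃ b : R, b ≠ 0 ∧
    ∃ Q' : α → MvPolynomial σ R, ∀ i, map (algebraMap R F) (Q' i) = C (algebraMap R F b) * Q i := by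
  classical
  choose b hb Q' hQ' using fun i => clear (R := R) (Q i)
  refine ⟨∏ i, b i, Finset.prod_ne_zero_iff.mpr fun i _ => hb i,
    fun i => C (∏ k ∈ Finset.univ.erase i, b k) * Q' i, fun i => ?_⟩
  rw [map_mul, hQ', map_C, ← Finset.mul_prod_erase _ _ (Finset.mem_univ i), map_mul, C_mul]
  ring

/-- the degree after cancellation is preserved by generic specialisations -/
theorem generic {N : ℕ} (P : Fin (N + 1) → MvPolynomial (Fin (N + 1)) R) {e : ℕ}
    (h : RedDeg (fun i => map (algebraMap R F) (P i)) e) :
    ∃ s : R, s ≠ 0 ∧ ∀ (E : Type u) [Field E] (ev : R →+* E), ev s ≠ 0 →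
      RedDeg (fun i => map ev (P i)) e := by
  classical
  obtain ⟨H, G, hH, hPG, hG, hcop⟩ := h
  obtain ⟨bH, hbH, H', hH'⟩ := clear (R := R) H
  obtain ⟨bG, hbG, G', hG'⟩ := clear_fam (R := R) G
  have hmi : Function.Injective (map (algebraMap R F) : MvPolynomial (Fin (N + 1)) R → _) :=
    map_injective _ aR_inj
  have hcopC : Cop G := hcop
  -- certificates
  have hcert : ∀ l : Fin (N + 1), ∃ (A : Fin (N + 1) → MvPolynomial (Fin (N + 1)) R),
      (∑ i, A i * G' i) ≠ 0 ∧ ∀ m, coeff m (∑ i, A i * G' i) ≠ 0 → m l = 0 := by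
    intro l
    obtain ⟨A, r, hr, hrl, hA⟩ := any_var hcopC l
    obtain ⟨bA, hbA, A', hA'⟩ := clear_fam (R := R) A
    have hmap : map (algebraMap R F) (∑ i, A' i * G' i) =
        C (algebraMap R F (bA * bG)) * r := by
      rw [map_sum, ← hA, Finset.mul_sum]
      refine Finset.sum_congr rfl fun i _ => ?_
      rw [map_mul, hA', hG', map_mul, C_mul]
      ring
    have hb0 : algebraMap R F (bA * bG) ≠ 0 := fun h =>
      mul_ne_zero hbA hbG (aR_inj (by rw [h, map_zero]))
    refine ⟨A', ?_, fun m hm => ?_⟩
    · intro h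
      rw [h, map_zero] at hmap
      exact mul_ne_zero (C_ne_zero.mpr hb0) hr hmap.symm
    · have h1 : coeff m r ≠ 0 := by
        intro h2
        apply hm
        apply aR_inj (F := F)
        rw [← coeff_map, hmap, coeff_C_mul, h2, mul_zero, map_zero]
      have h2 := monomial_le_degreeOf l (mem_support_iff.mpr h1)
      omega
  choose A hA0 hAm using hcert
  have hH'0 : H' ≠ 0 := by
    intro h
    rw [h, map_zero] at hH'
    exact mul_ne_zero (C_ne_zero.mpr fun h => hbH (aR_inj (F := F) (by rw [h, map_zero]))) hH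
      hH'.symm
  obtain ⟨mH, hmH⟩ := ne_zero_iff.mp hH'0
  choose m hm using fun l => ne_zero_iff.mp (hA0 l)
  have hprod : ∀ i, C (bH * bG) * P i = H' * G' i := by
    intro i
    apply hmi
    have h1 : map (algebraMap R F) (P i) = H * G i := hPG i
    have h2 : map (algebraMap R F) (C (bH * bG) * P i) =
        map (algebraMap R F) (C (bH * bG)) * map (algebraMap R F) (P i) := map_mul _ _ _
    have h3 : map (algebraMap R F) (H' * G' i) =
        map (algebraMap R F) H' * map (algebraMap R F) (G' i) := map_mul _ _ _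
    rw [h2, h3, hH', hG', map_C, h1, map_mul (algebraMap R F), C_mul]
    ring
  have hG'hom : ∀ i, (G' i).IsHomogeneous e := by
    intro i d hd
    have h1 : coeff d (map (algebraMap R F) (G' i)) ≠ 0 := by
      rw [coeff_map]
      exact fun h => hd (aR_inj (F := F) (by rw [h, map_zero]))
    rw [hG', coeff_C_mul] at h1
    exact hG i (right_ne_zero_of_mul h1)
  refine ⟨bH * bG * coeff mH H' * ∏ l, coeff (m l) (∑ i, A l i * G' i), ?_, fun E _ ev hev => ?_⟩
  · exact mul_ne_zero (mul_ne_zero (mul_ne_zero hbH hbG) hmH)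
      (Finset.prod_ne_zero_iff.mpr fun l _ => hm l)
  · rw [map_mul, map_mul, map_prod] at hev
    have e1 : ev (bH * bG) ≠ 0 := left_ne_zero_of_mul (left_ne_zero_of_mul hev)
    have e2 : ev (coeff mH H') ≠ 0 := right_ne_zero_of_mul (left_ne_zero_of_mul hev)
    have e3 : ∀ l, ev (coeff (m l) (∑ i, A l i * G' i)) ≠ 0 := fun l =>
      Finset.prod_ne_zero_iff.mp (right_ne_zero_of_mul hev) l (Finset.mem_univ l)
    have hHe : map ev H' ≠ 0 := by
      intro h
      apply e2
      rw [← coeff_map, h, coeff_zero]
    refine ⟨C (ev (bH * bG))⁻¹ * map ev H', fun i => map ev (G' i), ?_, ?_, ?_, ?_⟩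
    · exact mul_ne_zero (C_ne_zero.mpr (inv_ne_zero e1)) hHe
    · intro i
      have h1 : map ev (C (bH * bG)) * map ev (P i) = map ev H' * map ev (G' i) := by
        rw [← map_mul (map ev), ← map_mul (map ev), hprod i]
      rw [map_C] at h1
      change map ev (P i) = C (ev (bH * bG))⁻¹ * map ev H' * map ev (G' i)
      rw [mul_assoc, ← h1, ← mul_assoc, ← C_mul, inv_mul_cancel₀ e1, C_1, one_mul]
    · intro i
      exact (hG'hom i).map ev
    · intro q hq
      have hr : ∀ l, degreeOf l q = 0 := by
        intro l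
        have h1 : q ∣ map ev (∑ i, A l i * G' i) := by
          rw [map_sum]
          refine Finset.dvd_sum fun i _ => ?_
          rw [map_mul]
          exact (hq i).mul_left _
        obtain ⟨w, hw⟩ := h1
        have h2 : map ev (∑ i, A l i * G' i) ≠ 0 := by
          intro h
          apply e3 l
          rw [← coeff_map, h, coeff_zero]
        have hq0 : q ≠ 0 := by
          rintro rfl
          rw [zero_mul] at hw
          exact h2 hw
        have hw0 : w ≠ 0 := by
          rintro rfl
          rw [mul_zero] at hw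
          exact h2 hw
        have h3 : degreeOf l (map ev (∑ i, A l i * G' i)) = 0 := by
          apply Nat.le_zero.mp
          rw [degreeOf_le_iff]
          intro d hd
          rw [mem_support_iff, coeff_map] at hd
          have h4 : coeff d (∑ i, A l i * G' i) ≠ 0 := fun h => hd (by rw [h, map_zero])
          rw [hAm l d h4]
        rw [hw, degreeOf_mul_eq hq0 hw0] at h3
        omega
      have hq0 : q ≠ 0 := by
        rintro rfl
        have h1 : ∀ i, map ev (G' i) = 0 := fun i => zero_dvd_iff.mp (hq i)
        apply e3 0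
        rw [← coeff_map, map_sum]
        have : ∑ i, map ev (A 0 i * G' i) = 0 := Finset.sum_eq_zero fun i _ => by
          rw [map_mul, h1, mul_zero]
        rw [this, coeff_zero]
      have htd : q.totalDegree = 0 := by
        apply Nat.le_zero.mp
        refine Finset.sup_le fun d hd => ?_
        rw [Finsupp.sum]
        refine (Finset.sum_eq_zero fun l _ => ?_).le
        have := monomial_le_degreeOf l hd
        rw [hr l] at this
        omega
      rw [totalDegree_eq_zero_iff_eq_C] at htd
      rw [htd]
      refine (isUnit_iff_ne_zero.mpr ?_).map C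
      intro h
      rw [h, C_0] at htd
      exact hq0 htd

end Pool.Agent.N890.SC.Spec
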