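import Mathlib
import Pool.Agent.N890.SC.Spec

set_option autoImplicit false
set_option linter.unusedSectionVars false

/-! Iterates of tuples of forms over rings. -/

namespace Pool.Agent.N890.SC.Iter

open MvPolynomial Pool.Agent.N890.DG.Ht Pool.Agent.N890.SC.Bez
open Pool.Agent.Helper993.CS (RedDeg iter ff_scale iter_hom)

universe u v

/-- iterates by substitution -/
noncomputable def it {R : Type u} [CommRing R] {N : ℕ}
    (f : Fin (N + 1) → MvPolynomial (Fin (N + 1)) R) : ℕ → Fin (N + 1) →
      MvPolynomial (Fin (N + 1)) R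
  | 0 => fun i => X i
  | n + 1 => fun i => bind₁ (it f n) (f i)

section Ring

variable {R : Type u} {S : Type v} [CommRing R] [CommRing S] {N : ℕ}
  (f : Fin (N + 1) → MvPolynomial (Fin (N + 1)) R)

lemma it_map (g : R →+* S) (n : ℕ) (i : Fin (N + 1)) :
    it (fun i => map g (f i)) n i = map g (it f n i) := by
  induction n generalizing i with
  | zero => simp [it]
  | succ n ih =>
    simp only [it]
    rw [map_bind₁]
    congr 2
    funext k
    rw [ih]

lemma it_add (m n : ℕ) (i : Fin (N + 1)) : it f (m + n) i = bind₁ (it f n) (it f m i) := by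
  induction m generalizing i with
  | zero => simp [it]
  | succ m ih =>
    rw [Nat.succ_add]
    simp only [it]
    rw [bind₁_bind₁]
    congr 2
    funext k
    exact ih k

lemma it_it (m k : ℕ) (i : Fin (N + 1)) : it (it f m) k i = it f (m * k) i := by
  induction k generalizing i with
  | zero => simp [it]
  | succ k ih =>
    have h1 : it (it f m) (k + 1) i = bind₁ (it (it f m) k) (it f m i) := rfl
    have h2 : it (it f m) k = it f (m * k) := funext ih
    have e : m + m * k = m * (k + 1) := by ring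
    rw [h1, h2, ← it_add, e]

end Ring

section Field

variable {K : Type u} [Field K] {N : ℕ} (f : Fin (N + 1) → MvPolynomial (Fin (N + 1)) K)

lemma it_eq (n : ℕ) : it f n = iter f n := by
  induction n with
  | zero => rfl
  | succ n ih =>
    funext i
    change bind₁ (it f n) (f i) = bind₁ (iter f n) (f i)
    rw [ih]

variable {f}

lemma it_inj (hf : AlgebraicIndependent K f) (n : ℕ) :
    Function.Injective (bind₁ (it f n) : MvPolynomial (Fin (N + 1)) K → _) := by
  induction n with
  | zero =>
    have : (bind₁ (it f 0) : MvPolynomial (Fin (N + 1)) K →ₐ[K] _) = AlgHom.id K _ := by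
      change bind₁ X = _
      exact bind₁_X_left
    rw [this]
    exact Function.injective_id
  | succ n ih =>
    intro p q h
    have h1 : ∀ p, bind₁ (it f (n + 1)) p = bind₁ (it f n) (bind₁ f p) := fun p => by
      rw [bind₁_bind₁]; rfl
    rw [h1, h1] at h
    exact hf (ih h)

lemma it_algInd (hf : AlgebraicIndependent K f) (n : ℕ) : AlgebraicIndependent K (it f n) :=
  it_inj hf n

/-- common factors of the coordinates do not matter -/
lemma it_mul {d a : ℕ} {h : MvPolynomial (Fin (N + 1)) K} (hh : h.IsHomogeneous a) (h0 : h ≠ 0)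
    (hf : ∀ i, (f i).IsHomogeneous d) (hind : AlgebraicIndependent K f) (n : ℕ) :
    ∃ H : MvPolynomial (Fin (N + 1)) K, H ≠ 0 ∧ ∀ i, it (fun i => h * f i) n i = H * it f n i := by
  induction n with
  | zero => exact ⟨1, one_ne_zero, fun i => by simp [it]⟩
  | succ n ih =>
    obtain ⟨H, hH, e⟩ := ih
    refine ⟨(H ^ a * bind₁ (it f n) h) * H ^ d, ?_, fun i => ?_⟩
    · refine mul_ne_zero (mul_ne_zero (pow_ne_zero _ hH) ?_) (pow_ne_zero _ hH)
      intro h1
      exact h0 (it_inj hind n (by rw [h1, map_zero]))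
    · have e1 : it (fun i => h * f i) n = fun i => H * it f n i := funext e
      change bind₁ (it (fun i => h * f i) n) (h * f i) = _
      rw [e1, map_mul]
      have s1 : bind₁ (fun i => H * it f n i) h = H ^ a * bind₁ (it f n) h :=
        ff_scale hh H (it f n)
      have s2 : bind₁ (fun i => H * it f n i) (f i) = H ^ d * bind₁ (it f n) (f i) :=
        ff_scale (hf i) H (it f n)
      rw [s1, s2]
      change _ = _ * bind₁ (it f n) (f i)
      ring

lemma RedDeg.of_mul {P Q : Fin (N + 1) → MvPolynomial (Fin (N + 1)) K}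
    {H : MvPolynomial (Fin (N + 1)) K} (hH : H ≠ 0) (h : ∀ i, P i = H * Q i) {e : ℕ} :
    RedDeg P e ↔ RedDeg Q e := by
  constructor
  · rintro ⟨H', G, hH', hP, hG, hcop⟩
    have hcopC : Cop G := hcop
    obtain ⟨g, hg⟩ := dvd_of_cross hcopC (B := Q) (fun i k => by
      apply mul_left_cancel₀ hH
      have h1 := hP i
      have h2 := hP k
      rw [h i] at h1
      rw [h k] at h2
      calc H * (G i * Q k) = G i * (H * Q k) := by ring
        _ = G k * (H' * G i) := by rw [h2]; ring
        _ = H * (G k * Q i) := by rw [← h1]; ring)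
    obtain ⟨i0, hi0⟩ := hcopC.exists_ne
    refine ⟨g, G, ?_, fun i => by rw [hg i, mul_comm], hG, hcop⟩
    rintro rfl
    have h1 := hP i0
    rw [h i0, hg i0, mul_zero, mul_zero] at h1
    exact mul_ne_zero hH' hi0 h1.symm
  · rintro ⟨H', G, hH', hQ, hG, hcop⟩
    exact ⟨H * H', G, mul_ne_zero hH hH', fun i => by rw [h i, hQ i]; ring, hG, hcop⟩

lemma RedDeg.uniq {P : Fin (N + 1) → MvPolynomial (Fin (N + 1)) K} {d d' : ℕ}
    (h : RedDeg P d) (h' : RedDeg P d') : d = d' := by
  obtain ⟨H, G, hH, hP, hG, hcop⟩ := h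
  obtain ⟨H', G', hH', hP', hG', hcop'⟩ := h'
  have key : ∀ {H H' : MvPolynomial (Fin (N + 1)) K}
      {G G' : Fin (N + 1) → MvPolynomial (Fin (N + 1)) K} {d d' : ℕ}, H ≠ 0 → H' ≠ 0 →
      (∀ i, P i = H * G i) → (∀ i, P i = H' * G' i) → (∀ i, (G i).IsHomogeneous d) →
      (∀ i, (G' i).IsHomogeneous d') → Cop G → Cop G' → d ≤ d' := by
    intro H H' G G' d d' hH hH' hP hP' hG hG' hcop hcop'
    obtain ⟨g, hg⟩ := dvd_of_cross hcop (B := G') (fun i k => by
      apply mul_left_cancel₀ (mul_ne_zero hH hH')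
      calc H * H' * (G i * G' k) = (H * G i) * (H' * G' k) := by ring
        _ = (H * G k) * (H' * G' i) := by rw [← hP, ← hP', ← hP, ← hP']; ring
        _ = _ := by ring)
    obtain ⟨i, hi⟩ := hcop'.exists_ne
    have hGi : G i ≠ 0 := by
      intro h
      rw [hg i, h, zero_mul] at hi
      exact hi rfl
    obtain ⟨e', h1, -, h3⟩ := Pool.Agent.Helper259.RatMaps.homog_of_mul (p := G i) (q := g) (D := d')
      (by rw [← hg]; exact hG' i) (by rw [← hg]; exact hi)
    rw [(hG i).inj_right h1 hGi]
    exact h3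
  exact le_antisymm (key hH hH' hP hP' hG hG' hcop hcop') (key hH' hH hP' hP hG' hG hcop' hcop)

lemma redDeg_zero (hN : 1 ≤ N) : RedDeg (it f 0) 1 := by
  refine ⟨1, X, one_ne_zero, fun i => by simp [it], fun i => isHomogeneous_X _ _, ?_⟩
  obtain ⟨M, rfl⟩ : ∃ M, N = M + 1 := ⟨N - 1, by omega⟩
  have hXcop : Cop (X : Fin (M + 1 + 1) → MvPolynomial (Fin (M + 1 + 1)) K) := by
    apply Cop.exists_prime _ exists_prime_poly
    intro p hp
    by_contra hcon
    push Not at hcon
    have h0 := hcon 0
    have h1 := hcon 1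
    have hp0 := (MvPolynomial.X_prime (R := K) (i := (0 : Fin (M + 1 + 1)))).irreducible
    obtain ⟨q, hq⟩ := h0
    rcases hp0.isUnit_or_isUnit hq with hu | hu
    · exact hp.not_isUnit hu
    · have h2 : (X 0 : MvPolynomial (Fin (M + 1 + 1)) K) ∣ X 1 := by
        rw [hq]
        exact (hu.mul_right_dvd).mpr h1
      obtain ⟨r, hr⟩ := h2
      have h3 := congrArg (eval (fun i : Fin (M + 1 + 1) => if i = 1 then (1 : K) else 0)) hr
      simp at h3
  exact hXcop

end Field

end Pool.Agent.N890.SC.Iter
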