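import Mathlib
import Pool.Agent.N890.SC.Defs
import Pool.Agent.N890.SC.Iter

set_option autoImplicit false
set_option linter.unusedSectionVars false

/-! Lower semicontinuity of the dynamical degree in families. -/

namespace Pool.Agent.N890.SC.Semi

open MvPolynomial Filter Topology Pool.Agent.N890.DG Pool.Agent.N890.DG.Ht
  Pool.Agent.N890.SC.Bez Pool.Agent.N890.SC.Spec Pool.Agent.N890.SC.Iter
open Pool.Agent.Helper993.CS (RedDeg iter main_ge_two main_one)

universe u

/-- the uniform lower bound -/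
theorem uniform (N : ℕ) (hN : 1 ≤ N) : ∃ γ : ℝ, 0 < γ ∧
    ∀ (K : Type u) [Field K] [Infinite K] (d : ℕ)
      (f : Fin (N + 1) → MvPolynomial (Fin (N + 1)) K),
      (∀ i, (f i).IsHomogeneous d) → AlgebraicIndependent K f →
      ∃ D : ℕ → ℕ, (∀ n, 0 < D n) ∧
        (∀ n, RedDeg (iter f n) (D n) ∧ ∀ d', RedDeg (iter f n) d' → d' = D n) ∧
        ∃ δ : ℝ, Tendsto (fun n : ℕ => (D n : ℝ) ^ ((1 : ℝ) / n)) atTop (𝓝 δ) ∧
          ∀ m : ℝ, (∀ j < N, m * D j ≤ D (j + 1)) → γ * m ≤ δ := by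
  rcases Nat.lt_or_ge N 2 with h | h
  · obtain rfl : N = 0 + 1 := by omega
    exact ⟨1, one_pos, main_one⟩
  · obtain ⟨M, rfl⟩ : ∃ M, N = M + 1 := ⟨N - 1, by omega⟩
    exact main_ge_two M (by omega)

/-- a good exponent -/
theorem exponent {D : ℕ → ℕ} {δ : ℝ} (hδ : 1 ≤ δ)
    (hD : Tendsto (fun n : ℕ => (D n : ℝ) ^ (1 / (n : ℝ))) atTop (𝓝 δ)) (hD0 : D 0 = 1)
    (N : ℕ) {γ ε : ℝ} (hγ : 0 < γ) (hε : 0 < ε) :
    ∃ m : ℕ, 1 ≤ m ∧ ∃ x : ℝ, 0 < x ∧ (∀ j ≤ N, x ^ m * D (m * j) ≤ D (m * (j + 1))) ∧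
      δ - ε < γ ^ (1 / (m : ℝ)) * x := by
  -- the loss
  have h1 : Tendsto (fun η : ℝ => (δ - η) * ((δ - η) / (δ + η)) ^ N) (𝓝[>] 0) (𝓝 δ) := by
    have hc : ContinuousAt (fun η : ℝ => (δ - η) * ((δ - η) / (δ + η)) ^ N) 0 := by
      have : δ + 0 ≠ 0 := by linarith
      fun_prop (disch := assumption)
    have h2 := hc.tendsto
    simp only [sub_zero, add_zero] at h2
    rw [div_self (by linarith : δ ≠ 0), one_pow, mul_one] at h2
    exact h2.mono_left nhdsWithin_le_nhds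
  have h2 : ∀ᶠ η : ℝ in 𝓝[>] 0, δ - ε / 2 < (δ - η) * ((δ - η) / (δ + η)) ^ N :=
    h1.eventually_const_lt (by linarith)
  have h3 : ∀ᶠ η : ℝ in 𝓝[>] 0, η < δ :=
    (eventually_lt_nhds (by linarith : (0 : ℝ) < δ)).filter_mono nhdsWithin_le_nhds
  have h4 : ∀ᶠ η : ℝ in 𝓝[>] 0, 0 < η := eventually_mem_nhdsWithin
  obtain ⟨η, ⟨h2', h3'⟩, h4'⟩ := ((h2.and h3).and h4).exists
  have p1 : 0 < δ - η := by linarith
  have p2 : 0 < δ + η := by linarith
  set ρ := (δ - η) / (δ + η) with hρ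
  have hρ0 : 0 < ρ := div_pos p1 p2
  have hρ1 : ρ ≤ 1 := by rw [hρ, div_le_one p2]; linarith
  set x := (δ - η) * ρ ^ N with hx
  have hx0 : 0 < x := mul_pos p1 (pow_pos hρ0 _)
  -- the size of the degrees
  have h5 : ∀ᶠ n : ℕ in atTop, (D n : ℝ) ^ (1 / (n : ℝ)) < δ + η :=
    hD.eventually_lt_const (by linarith)
  have h6 : ∀ᶠ n : ℕ in atTop, δ - η < (D n : ℝ) ^ (1 / (n : ℝ)) :=
    hD.eventually_const_lt (by linarith)
  obtain ⟨n₀, hn₀⟩ := eventually_atTop.mp (h5.and h6)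
  have hup : ∀ n ≥ max n₀ 1, (D n : ℝ) ≤ (δ + η) ^ n ∧ (δ - η) ^ n ≤ D n := by
    intro n hn
    have hn1 : 1 ≤ n := (le_max_right _ _).trans hn
    have hn0 : (n : ℝ) ≠ 0 := by exact_mod_cast (by omega : n ≠ 0)
    obtain ⟨a, b⟩ := hn₀ n ((le_max_left _ _).trans hn)
    have e : ((D n : ℝ) ^ (1 / (n : ℝ))) ^ n = D n := by
      rw [← Real.rpow_natCast, ← Real.rpow_mul (by positivity), one_div_mul_cancel hn0,
        Real.rpow_one]
    constructor
    · rw [← e]
      exact pow_le_pow_left₀ (by positivity) a.le n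
    · conv_rhs => rw [← e]
      exact pow_le_pow_left₀ p1.le b.le n
  -- the exponent
  have h7 : Tendsto (fun m : ℕ => γ ^ (1 / (m : ℝ)) * x) atTop (𝓝 x) := by
    have := (tendsto_const_nhds (x := γ)).rpow (tendsto_one_div_atTop_nhds_zero_nat (𝕜 := ℝ))
      (Or.inl hγ.ne')
    rw [Real.rpow_zero] at this
    have := this.mul_const x
    rwa [one_mul] at this
  have h8 : ∀ᶠ m : ℕ in atTop, δ - ε < γ ^ (1 / (m : ℝ)) * x :=
    h7.eventually_const_lt (by linarith)
  obtain ⟨m, hm, hm'⟩ := (h8.and (eventually_ge_atTop (max n₀ 1))).exists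
  have hm1 : 1 ≤ m := (le_max_right _ _).trans hm'
  refine ⟨m, hm1, x, hx0, fun j hj => ?_, hm⟩
  have hlow : (δ - η) ^ (m * (j + 1)) ≤ (D (m * (j + 1)) : ℝ) := by
    apply (hup _ _).2
    calc max n₀ 1 ≤ m := hm'
      _ = m * 1 := (mul_one m).symm
      _ ≤ m * (j + 1) := Nat.mul_le_mul_left _ (by omega)
  have hupj : (D (m * j) : ℝ) ≤ (δ + η) ^ (m * j) := by
    rcases Nat.eq_zero_or_pos j with rfl | hj0
    · rw [mul_zero, hD0, pow_zero, Nat.cast_one]
    · apply (hup _ _).1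
      calc max n₀ 1 ≤ m := hm'
        _ = m * 1 := (mul_one m).symm
        _ ≤ m * j := Nat.mul_le_mul_left _ hj0
  have key : x * (δ + η) ^ j ≤ (δ - η) ^ (j + 1) := by
    have e1 : (δ - η) ^ j = ρ ^ j * (δ + η) ^ j := by
      rw [← mul_pow, hρ, div_mul_cancel₀ _ p2.ne']
    have e2 : ρ ^ N ≤ ρ ^ j := pow_le_pow_of_le_one hρ0.le hρ1 hj
    calc x * (δ + η) ^ j = (δ - η) * (ρ ^ N * (δ + η) ^ j) := by rw [hx]; ring
      _ ≤ (δ - η) * (ρ ^ j * (δ + η) ^ j) := by gcongr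
      _ = (δ - η) ^ (j + 1) := by rw [← e1]; ring
  calc x ^ m * (D (m * j) : ℝ) ≤ x ^ m * (δ + η) ^ (m * j) := by gcongr
    _ = (x * (δ + η) ^ j) ^ m := by rw [mul_pow x, ← pow_mul, mul_comm j m]
    _ ≤ ((δ - η) ^ (j + 1)) ^ m := by gcongr
    _ = (δ - η) ^ (m * (j + 1)) := by rw [← pow_mul, mul_comm]
    _ ≤ _ := hlow

/-- lower bound for the dynamical degree from finitely many degrees of iterates -/
theorem bound {K : Type u} [Field K] [Infinite K] {N : ℕ} {γ : ℝ} (hγ0 : 0 < γ)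
    (hγ : ∀ (d : ℕ) (f : Fin (N + 1) → MvPolynomial (Fin (N + 1)) K),
      (∀ i, (f i).IsHomogeneous d) → AlgebraicIndependent K f →
      ∃ D : ℕ → ℕ, (∀ n, 0 < D n) ∧
        (∀ n, RedDeg (iter f n) (D n) ∧ ∀ d', RedDeg (iter f n) d' → d' = D n) ∧
        ∃ δ : ℝ, Tendsto (fun n : ℕ => (D n : ℝ) ^ ((1 : ℝ) / n)) atTop (𝓝 δ) ∧
          ∀ m : ℝ, (∀ j < N, m * D j ≤ D (j + 1)) → γ * m ≤ δ)
    {g : Fin (N + 1) → MvPolynomial (Fin (N + 1)) K} {d : ℕ} (hg : ∀ i, (g i).IsHomogeneous d)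
    (hind : AlgebraicIndependent K g) {e : ℕ → ℕ} (he : ∀ n, RedDeg (it g n) (e n)) {δ : ℝ}
    (hδ : Tendsto (fun n : ℕ => (e n : ℝ) ^ (1 / (n : ℝ))) atTop (𝓝 δ)) {m : ℕ} (hm : 1 ≤ m)
    {x : ℝ} (h : ∀ j < N, x ^ m * e (m * j) ≤ e (m * (j + 1))) :
    γ ^ (1 / (m : ℝ)) * x ≤ δ := by
  have hhom : ∀ i, (it g m i).IsHomogeneous (d ^ m) := by
    rw [it_eq]
    exact Pool.Agent.Helper993.CS.iter_hom d g hg m
  obtain ⟨D, hpos, hD, δ', hδ', hb⟩ := hγ (d ^ m) (it g m) hhom (it_algInd hind m)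
  have hDe : ∀ j, D j = e (m * j) := by
    intro j
    symm
    apply (hD j).2
    rw [← it_eq]
    have : it (it g m) j = it g (m * j) := funext fun i => it_it g m j i
    rw [this]
    exact he _
  have hm0 : (m : ℝ) ≠ 0 := by exact_mod_cast (by omega : m ≠ 0)
  have h1 : γ * x ^ m ≤ δ' := by
    apply hb
    intro j hj
    rw [hDe, hDe]
    exact h j hj
  have h2 : δ' = δ ^ m := by
    apply tendsto_nhds_unique hδ'
    have h3 : Tendsto (fun j : ℕ => ((e (m * j) : ℝ) ^ (1 / ((m * j : ℕ) : ℝ))) ^ m) atTop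
        (𝓝 (δ ^ m)) :=
      (hδ.comp (tendsto_id.const_mul_atTop' (by omega : 0 < m))).pow m
    refine h3.congr' ?_
    filter_upwards [eventually_gt_atTop 0] with j hj
    have hj0 : (j : ℝ) ≠ 0 := by exact_mod_cast hj.ne'
    rw [hDe, ← Real.rpow_natCast, ← Real.rpow_mul (by positivity)]
    congr 1
    push_cast
    field_simp
  have h3 : 0 ≤ δ := by
    apply ge_of_tendsto' hδ
    intro n
    positivity
  have h4 : (γ ^ (1 / (m : ℝ)) * x) ^ m ≤ δ ^ m := by
    rw [mul_pow, ← Real.rpow_natCast (γ ^ (1 / (m : ℝ))), ← Real.rpow_mul hγ0.le,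
      one_div_mul_cancel hm0, Real.rpow_one, ← h2]
    exact h1
  exact le_of_pow_le_pow_left₀ (by omega) h3 h4

lemma red_iff {K : Type u} [Field K] {N : ℕ} {f : Fin (N + 1) → MvPolynomial (Fin (N + 1)) K}
    {n e : ℕ} : IsIterateDegree f n e ↔ RedDeg (it f n) e := by
  have h : ∀ n i, substIter f n i = it f n i := by
    intro n
    induction n with
    | zero => intro i; rfl
    | succ n ih =>
      intro i
      have h1 : substIter f n = it f n := funext ih
      change bind₁ (substIter f n) (f i) = bind₁ (it f n) (f i)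
      rw [h1]
  constructor
  · rintro ⟨H, G, hH, hG, hP⟩
    exact ⟨H, G, hH, fun i => by rw [← h]; exact hP i, hG.homogeneous, hG.coprime⟩
  · rintro ⟨H, G, hH, hP, hG, hcop⟩
    exact ⟨H, G, hH, ⟨hG, hcop⟩, fun i => by rw [h]; exact hP i⟩

/-- **Lower semicontinuity of the dynamical degree in families.** -/
theorem semi {K : Type u} [Field K] [Infinite K] {N k : ℕ} (hN : 1 ≤ N) {d : ℕ}
    {F : Fin (N + 1) → MvPolynomial (Fin (N + 1)) (FractionRing (MvPolynomial (Fin k) K))}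
    (hF : IsRationalMap F d) (hdom : IsDominant F) {δ : ℝ} (hδ : IsDynamicalDegree F δ)
    {ε : ℝ} (hε : 0 < ε) :
    ∃ P : MvPolynomial (Fin k) K, P ≠ 0 ∧ ∀ (t : Fin k → K)
      (G : Fin (N + 1) → MvPolynomial (Fin (N + 1)) K) (δ' : ℝ), IsSpecialization t F G →
      IsDominant G → IsDynamicalDegree G δ' → eval t P ≠ 0 → δ - ε < δ' := by
  classical
  obtain ⟨γ, hγ, huni⟩ := uniform.{u} N hN
  obtain ⟨e, he, hlim⟩ := hδ
  have he' : ∀ n, RedDeg (it F n) (e n) := fun n => red_iff.mp (he n)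
  -- degrees are positive
  have hepos : ∀ n, 1 ≤ e n := by
    intro n
    rcases Nat.eq_zero_or_pos (e n) with h0 | h0
    · exfalso
      obtain ⟨H, G, hH, hP, hG, hcop⟩ := he' n
      rw [h0] at hG
      have hc : ∀ i, ∃ c, G i = C c := fun i =>
        ⟨coeff 0 (G i), totalDegree_eq_zero_iff_eq_C.mp (Nat.le_zero.mp (hG i).totalDegree_le)⟩
      choose c hc using hc
      -- a linear relation
      have hind := it_algInd hdom n
      obtain ⟨M, rfl⟩ : ∃ M, N = M + 1 := ⟨N - 1, by omega⟩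
      have hrel : aeval (it F n) (C (c 1) * X 0 - C (c 0) * X 1 :
          MvPolynomial (Fin (M + 1 + 1)) _) = 0 := by
        rw [map_sub, map_mul, map_mul, aeval_X, aeval_X, aeval_C, aeval_C, hP 0, hP 1, hc 0, hc 1]
        simp only [algebraMap_eq]
        ring
      have h1 := hind (hrel.trans (map_zero _).symm)
      have h2 : c 1 = 0 := by
        have := congrArg (coeff (Finsupp.single (0 : Fin (M + 1 + 1)) 1)) h1
        rw [coeff_sub, coeff_C_mul, coeff_C_mul, coeff_X, coeff_X, coeff_zero, if_pos rfl,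
          if_neg (by
            intro h5
            have := Finsupp.single_left_injective one_ne_zero h5
            exact absurd (congrArg Fin.val this) (by simp)), mul_one, mul_zero, sub_zero] at this
        exact this
      have h3 := hind.ne_zero 1
      apply h3
      rw [hP 1, hc 1, h2, C_0, mul_zero]
    · exact h0
  have hδ1 : 1 ≤ δ := by
    apply ge_of_tendsto' hlim
    intro n
    exact Real.one_le_rpow (by exact_mod_cast hepos n) (by positivity)
  have he0 : e 0 = 1 := RedDeg.uniq (he' 0) (redDeg_zero hN)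
  obtain ⟨m, hm, x, hx, hxe, hxε⟩ := exponent hδ1 hlim he0 N hγ hε
  -- integral coordinates
  set R := MvPolynomial (Fin k) K with hR
  set T := FractionRing R with hT
  obtain ⟨s, hs, f, hf⟩ := clear_fam (R := R) F
  have hιs : algebraMap R T s ≠ 0 := fun h => hs (IsFractionRing.injective R T (by
    rw [h, map_zero]))
  have hgen : ∀ n, ∃ b : R, b ≠ 0 ∧ ∀ (E : Type u) [Field E] (ev : R →+* E), ev b ≠ 0 →
      RedDeg (fun i => map ev (it f n i)) (e n) := by
    intro n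
    apply generic (F := T)
    have h1 : (fun i => map (algebraMap R T) (it f n i)) = it (fun i => C (algebraMap R T s) * F i) n := by
      funext i
      rw [← it_map]
      congr 1
      funext i
      exact hf i
    rw [h1]
    obtain ⟨H, hH, hHe⟩ := it_mul (isHomogeneous_C _ (algebraMap R T s)) (C_ne_zero.mpr hιs)
      hF.homogeneous hdom n
    exact (RedDeg.of_mul hH hHe).mpr (he' n)
  choose b hb hbE using hgen
  refine ⟨s * ∏ j ∈ Finset.range (N + 1), b (m * j), mul_ne_zero hs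
    (Finset.prod_ne_zero_iff.mpr fun j _ => hb _), fun t G δ' hspec hGdom hδ' ht => ?_⟩
  rw [map_mul, map_prod] at ht
  have hst : eval t s ≠ 0 := left_ne_zero_of_mul ht
  have hbt : ∀ j ≤ N, eval t (b (m * j)) ≠ 0 := fun j hj =>
    Finset.prod_ne_zero_iff.mp (right_ne_zero_of_mul ht) j (Finset.mem_range.mpr (by omega))
  obtain ⟨H, d', hH, hG, hval⟩ := hspec
  obtain ⟨e', he'', hlim'⟩ := hδ'
  have heG : ∀ n, RedDeg (it G n) (e' n) := fun n => red_iff.mp (he'' n)
  -- the specialised integral coordinates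
  have hft : ∀ i, map (eval t) (f i) = (C (eval t s) * H) * G i := by
    intro i
    ext μ
    rw [coeff_map, mul_assoc, coeff_C_mul]
    obtain ⟨p, q, hq, h1, h2⟩ := hval i μ
    have h3 : algebraMap R T (coeff μ (f i)) = algebraMap R T s * coeff μ (F i) := by
      rw [← coeff_map, hf, coeff_C_mul]
    have h4 : coeff μ (f i) * q = s * p := by
      apply IsFractionRing.injective R T
      rw [map_mul, h3, map_mul, mul_assoc]
      congr 1
    have h5 := congrArg (eval t) h4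
    rw [map_mul, map_mul] at h5
    apply mul_right_cancel₀ hq
    rw [h5, mul_assoc, h2]
  have hHhom : ∃ a, H.IsHomogeneous a := by
    have hcopG : Cop G := hG.coprime
    obtain ⟨i, hi⟩ := hcopG.exists_ne
    have h1 : (H * G i).IsHomogeneous d := by
      intro μ hμ
      obtain ⟨p, q, hq, h1, h2⟩ := hval i μ
      apply hF.homogeneous i
      intro h3
      rw [h3, zero_mul] at h1
      have h4 : p = 0 := IsFractionRing.injective R T (by rw [← h1, map_zero])
      rw [h4, map_zero] at h2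
      exact (mul_ne_zero hμ hq) h2
    obtain ⟨a, h2, -, -⟩ := Pool.Agent.Helper259.RatMaps.homog_of_mul h1 (mul_ne_zero hH hi)
    exact ⟨a, h2⟩
  obtain ⟨a, hHa⟩ := hHhom
  have hdeg : ∀ j ≤ N, e' (m * j) = e (m * j) := by
    intro j hj
    have h1 := hbE (m * j) K (eval t) (hbt j hj)
    have h2 : (fun i => map (eval t) (it f (m * j) i)) =
        it (fun i => (C (eval t s) * H) * G i) (m * j) := by
      funext i
      rw [← it_map]
      congr 1
      funext i
      exact hft i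
    rw [h2] at h1
    obtain ⟨H', hH', hHe'⟩ := it_mul (hHa.C_mul (eval t s))
      (mul_ne_zero (C_ne_zero.mpr hst) hH) hG.homogeneous hGdom (m * j)
    exact RedDeg.uniq (heG _) ((RedDeg.of_mul hH' hHe').mp h1)
  have hfin := bound hγ (huni K) hG.homogeneous hGdom heG hlim' hm (x := x) (fun j hj => by
    rw [hdeg j (by omega), hdeg (j + 1) (by omega)]
    exact hxe j (by omega))
  linarith

end Pool.Agent.N890.SC.Semi
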