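import Mathlib
import Pool.Agent.N890.SC.Semi

set_option autoImplicit false

/-! The dynamical degree of a dominant rational map exists and is unique. -/

namespace Pool.Agent.N890.SC.Exist

open MvPolynomial Filter Topology Pool.Agent.N890.DG Pool.Agent.N890.SC Pool.Agent.N890.SC.Semi
  Pool.Agent.N890.SC.Iter
open Pool.Agent.Helper993.CS (RedDeg iter)

universe u

theorem unique {K : Type u} [Field K] {N : ℕ}
    {F : Fin (N + 1) → MvPolynomial (Fin (N + 1)) K} {δ₁ δ₂ : ℝ}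
    (h₁ : IsDynamicalDegree F δ₁) (h₂ : IsDynamicalDegree F δ₂) : δ₁ = δ₂ := by
  obtain ⟨e₁, he₁, hl₁⟩ := h₁
  obtain ⟨e₂, he₂, hl₂⟩ := h₂
  have h : e₁ = e₂ := funext fun n => RedDeg.uniq (red_iff.mp (he₁ n)) (red_iff.mp (he₂ n))
  subst h
  exact tendsto_nhds_unique hl₁ hl₂

theorem exists_dynamicalDegree {K : Type u} [Field K] [Infinite K] {N : ℕ} (hN : 1 ≤ N) {d : ℕ}
    {F : Fin (N + 1) → MvPolynomial (Fin (N + 1)) K} (hF : IsRationalMap F d)
    (hdom : IsDominant F) : ∃ δ : ℝ, IsDynamicalDegree F δ := by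
  obtain ⟨γ, -, h⟩ := uniform.{u} N hN
  obtain ⟨D, -, hD, δ, hδ, -⟩ := h K d F hF.homogeneous hdom
  refine ⟨δ, D, fun n => red_iff.mpr ?_, hδ⟩
  rw [it_eq]
  exact (hD n).1

end Pool.Agent.N890.SC.Exist
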